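import Pool.Agent.Helper44.BA.Final

/-!
# For which primes is the natural surjection `Λ(2) → L(B̄(2, p))` an isomorphism?

For every prime `p` other than `5` and `7` (for which the answer was known): if and only if `p` is
`2` or `3`.
-/

open Helper44.BL in
theorem Pool.Agent.Results.MP_803beb_al.WhichPrimes.result (p : ℕ) [Fact p.Prime]
    (h5 : p ≠ 5) (h7 : p ≠ 7) :
    (∃ (L : Type) (_ : LieRing L) (_ : LieAlgebra (ZMod p) L)
      (c : ℕ → FreeGroup Bool ⧸ resKer p → L), IsLieOf c) ∧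
    ∀ (L : Type) [LieRing L] [LieAlgebra (ZMod p) L] (c : ℕ → FreeGroup Bool ⧸ resKer p → L),
      IsLieOf c → (∃ ν : Lam p →ₗ⁅ZMod p⁆ L, IsNatural p c ν) ∧
        (∀ ν : Lam p →ₗ⁅ZMod p⁆ L, IsNatural p c ν →
          Function.Surjective ν ∧ (Function.Injective ν ↔ p = 2 ∨ p = 3)) ∧
        (Nonempty (Lam p ≃ₗ⁅ZMod p⁆ L) ↔ p = 2 ∨ p = 3) :=
  Helper44.BL.mainS h5 h7
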